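import Pool.Agent.Q90.SLR

/-!
# A non-abelian profinite CSA-group which is not pro-p
-/

set_option autoImplicit false

open scoped PowerSeries.WithPiTopology MatrixGroups

namespace Pool.Agent.Results.MP_b9311c_al.NotProP

universe u

/-- The subgroup `M` is abelian. -/
def IsAb {G : Type u} [Group G] (M : Subgroup G) : Prop := ∀ a ∈ M, ∀ b ∈ M, a * b = b * a

/-- `M` is a maximal abelian subgroup. -/
def IsMaxAb {G : Type u} [Group G] (M : Subgroup G) : Prop :=
  IsAb M ∧ ∀ M' : Subgroup G, IsAb M' → M ≤ M' → M' = M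

/-- `H` is malnormal: `H ∩ gHg⁻¹ = 1` for every `g ∉ H`. -/
def IsMalnormal {G : Type u} [Group G] (H : Subgroup G) : Prop :=
  ∀ g : G, g ∉ H → ∀ x ∈ H, g⁻¹ * x * g ∈ H → x = 1

/-- `G` is a CSA-group: every maximal abelian subgroup is malnormal. -/
def IsCSA (G : Type u) [Group G] : Prop := ∀ M : Subgroup G, IsMaxAb M → IsMalnormal M

/-- `G` is profinite: a compact Hausdorff totally disconnected topological group. -/
def IsProfinite (G : Type u) [Group G] [TopologicalSpace G] : Prop :=
  IsTopologicalGroup G ∧ CompactSpace G ∧ T2Space G ∧ TotallyDisconnectedSpace G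

/-- The profinite group `G` is pro-`p`: the index of every open normal subgroup is a power of
`p`. -/
def IsProP (p : ℕ) (G : Type u) [Group G] [TopologicalSpace G] : Prop :=
  ∀ N : Subgroup G, N.Normal → IsOpen (N : Set G) → ∃ k : ℕ, N.index = p ^ k

open Pool.Agent.Q90.SLR PowerSeries

section

variable (F : Type u) [Field F] [CharP F 2] (h4 : ∀ x : F, x ^ 4 = x)

instance charPPS : CharP (PowerSeries F) 2 :=
  charP_of_injective_algebraMap (R := F) (A := PowerSeries F)
    (algebraMap F (PowerSeries F)).injective 2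

/-- The Frobenius automorphism on coefficients. -/
noncomputable def sg : PowerSeries F →+* PowerSeries F := PowerSeries.map (frobenius F 2)

variable {F}

include h4 in
theorem sg_sg (f : PowerSeries F) : sg F (sg F f) = f := by
  ext n
  simp only [sg, PowerSeries.coeff_map, frobenius_def]
  rw [← pow_mul]
  exact h4 _

theorem sg_X : sg F (X : PowerSeries F) = X := by
  simp [sg]

include h4 in
theorem order_sg (f : PowerSeries F) : (sg F f).order = f.order := by
  apply le_antisymm
  · conv_rhs => rw [← sg_sg h4 f]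
    exact PowerSeries.le_order_map _
  · exact PowerSeries.le_order_map _

include h4 in
/-- The norm form is anisotropic. -/
theorem aniso (α β : PowerSeries F) (h : α * sg F α = β * (X * sg F β)) : α = 0 ∧ β = 0 := by
  have h1 := congrArg PowerSeries.order h
  rw [PowerSeries.order_mul, PowerSeries.order_mul, PowerSeries.order_mul, order_sg h4,
    order_sg h4, PowerSeries.order_X] at h1
  by_cases hα : α = 0
  · refine ⟨hα, ?_⟩
    by_contra hβ
    rw [hα, zero_mul] at h
    rcases mul_eq_zero.1 h.symm with h2 | h2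
    · exact hβ h2
    · rcases mul_eq_zero.1 h2 with h3 | h3
      · exact PowerSeries.X_ne_zero h3
      · apply hβ
        rw [← sg_sg h4 β, h3, map_zero]
  · exfalso
    have hβ : β ≠ 0 := by
      intro hβ
      rw [hβ, zero_mul] at h
      rcases mul_eq_zero.1 h with h2 | h2
      · exact hα h2
      · apply hα
        rw [← sg_sg h4 α, h2, map_zero]
    have h5 : α.order ≠ ⊤ := by rwa [Ne, PowerSeries.order_eq_top]
    have h6 : β.order ≠ ⊤ := by rwa [Ne, PowerSeries.order_eq_top]
    obtain ⟨m, hm⟩ := ENat.ne_top_iff_exists.1 h5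
    obtain ⟨n, hn⟩ := ENat.ne_top_iff_exists.1 h6
    rw [← hm, ← hn] at h1
    have h7 : m + m = n + (1 + n) := by exact_mod_cast h1
    omega

/-- The group: norm one elements of the maximal order of a quaternion division algebra over
`𝔽₂((t))`, as a subgroup of `SL₂(𝔽₄[[t]])`. -/
noncomputable def Gp : Subgroup SL(2, PowerSeries F) where
  carrier := {g | g 1 1 = sg F (g 0 0) ∧ g 1 0 = X * sg F (g 0 1)}
  mul_mem' := by
    rintro g h ⟨g1, g2⟩ ⟨k1, k2⟩
    refine ⟨?_, ?_⟩
    · rw [mul11, mul00, map_add, map_mul, map_mul, g1, g2, k1, k2, map_mul, sg_X, sg_sg h4]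
      ring
    · rw [mul10, mul01, map_add, map_mul, map_mul, g1, g2, k1, k2, sg_sg h4]
      ring
  one_mem' := by
    refine ⟨?_, ?_⟩ <;> simp
  inv_mem' := by
    rintro g ⟨g1, g2⟩
    refine ⟨?_, ?_⟩
    · rw [Matrix.SpecialLinearGroup.coe_inv, Matrix.adjugate_fin_two]
      simp [g1, sg_sg h4]
    · rw [Matrix.SpecialLinearGroup.coe_inv, Matrix.adjugate_fin_two]
      simp [g2]

theorem mem_Gp (g : SL(2, PowerSeries F)) :
    g ∈ Gp h4 ↔ g 1 1 = sg F (g 0 0) ∧ g 1 0 = X * sg F (g 0 1) := Iff.rfl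

/-- Two elements `g, h` of the group are equal if `det (g - h) = 0`. -/
theorem eq_of_det (g h : SL(2, PowerSeries F)) (hg : g ∈ Gp h4) (hh : h ∈ Gp h4)
    (hd : (g 0 0 - h 0 0) * (g 1 1 - h 1 1) = (g 0 1 - h 0 1) * (g 1 0 - h 1 0)) : g = h := by
  rw [mem_Gp] at hg hh
  have h1 : (g 0 0 - h 0 0) * sg F (g 0 0 - h 0 0) =
      (g 0 1 - h 0 1) * (X * sg F (g 0 1 - h 0 1)) := by
    rw [map_sub, map_sub, mul_sub (X : PowerSeries F), ← hg.1, ← hh.1, ← hg.2, ← hh.2]
    linear_combination hd
  obtain ⟨h2, h3⟩ := aniso h4 _ _ h1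
  have h4' := sub_eq_zero.1 h2
  have h5' := sub_eq_zero.1 h3
  apply ext_entries h4' h5'
  · rw [hg.2, hh.2, h5']
  · rw [hg.1, hh.1, h4']

/-- An involution in the group is trivial. -/
theorem eq_one_of_sq (g : SL(2, PowerSeries F)) (hg : g ∈ Gp h4) (h : g * g = 1) : g = 1 := by
  apply eq_of_det h4 g 1 hg (one_mem _)
  have h0 := congrArg (fun z : SL(2, PowerSeries F) => z 0 0) h
  have h1 := congrArg (fun z : SL(2, PowerSeries F) => z 0 1) h
  have h2 := congrArg (fun z : SL(2, PowerSeries F) => z 1 0) h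
  have h3 := congrArg (fun z : SL(2, PowerSeries F) => z 1 1) h
  simp only [mul00, mul01, mul10, mul11] at h0 h1 h2 h3
  have hd := det_eq g
  have h2' : (2 : PowerSeries F) = 0 := CharTwo.two_eq_zero
  simp only [Matrix.SpecialLinearGroup.coe_one, Matrix.one_apply_eq, Matrix.one_apply_ne,
    ne_eq, zero_ne_one, one_ne_zero, not_false_eq_true] at h0 h1 h2 h3 ⊢
  have htr : (g 0 0 + g 1 1) * (g 0 0 + g 1 1) = 0 := by
    linear_combination h0 + h3 + 2 * hd + 2 * h2'
  have htr' := mul_self_eq_zero.1 htr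
  linear_combination hd - htr' + h2'

/-- A conjugate of `y` commuting with `y` is `y` or `y⁻¹`. -/
theorem conj_cases (y g : SL(2, PowerSeries F)) (hy : y ∈ Gp h4) (hg : g ∈ Gp h4)
    (hc : y * (g⁻¹ * y * g) = (g⁻¹ * y * g) * y) : g⁻¹ * y * g = y ∨ g⁻¹ * y * g = y⁻¹ := by
  set z := g⁻¹ * y * g with hz
  have hzG : z ∈ Gp h4 := mul_mem (mul_mem (inv_mem hg) hy) hg
  have htr : z 0 0 + z 1 1 = y 0 0 + y 1 1 := by
    have h1 : g * z = y * g := by rw [hz]; group
    have hd := det_eq g
    have e0 := congrArg (fun z : SL(2, PowerSeries F) => z 0 0) h1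
    have e1 := congrArg (fun z : SL(2, PowerSeries F) => z 0 1) h1
    have e2 := congrArg (fun z : SL(2, PowerSeries F) => z 1 0) h1
    have e3 := congrArg (fun z : SL(2, PowerSeries F) => z 1 1) h1
    simp only [mul00, mul01, mul10, mul11] at e0 e1 e2 e3
    linear_combination g 1 1 * e0 - g 0 1 * e2 - g 1 0 * e1 + g 0 0 * e3 -
      (z 0 0 + z 1 1 - y 0 0 - y 1 1) * hd
  -- the product of the two determinants vanishes
  have i0 : (y⁻¹ : SL(2, PowerSeries F)) 0 0 = y 1 1 := by
    rw [Matrix.SpecialLinearGroup.coe_inv, Matrix.adjugate_fin_two]; simp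
  have i1 : (y⁻¹ : SL(2, PowerSeries F)) 0 1 = - y 0 1 := by
    rw [Matrix.SpecialLinearGroup.coe_inv, Matrix.adjugate_fin_two]; simp
  have i2 : (y⁻¹ : SL(2, PowerSeries F)) 1 0 = - y 1 0 := by
    rw [Matrix.SpecialLinearGroup.coe_inv, Matrix.adjugate_fin_two]; simp
  have i3 : (y⁻¹ : SL(2, PowerSeries F)) 1 1 = y 0 0 := by
    rw [Matrix.SpecialLinearGroup.coe_inv, Matrix.adjugate_fin_two]; simp
  have hprod : ((z 0 0 - y 0 0) * (z 1 1 - y 1 1) - (z 0 1 - y 0 1) * (z 1 0 - y 1 0)) *
      ((z 0 0 - y 1 1) * (z 1 1 - y 0 0) - (z 0 1 + y 0 1) * (z 1 0 + y 1 0)) = 0 := by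
    obtain ⟨c0, c1, c2⟩ := (commute_iff y z).1 hc
    have dy := det_eq y
    have dz := det_eq z
    -- the matrix `(z - y)(z - y⁻¹)` vanishes
    have m0 : (z 0 0 - y 0 0) * (z 0 0 - y 1 1) + (z 0 1 - y 0 1) * (z 1 0 + y 1 0) = 0 := by
      linear_combination z 0 0 * htr - dz + dy - c0
    have m1 : (z 0 0 - y 0 0) * (z 0 1 + y 0 1) + (z 0 1 - y 0 1) * (z 1 1 - y 0 0) = 0 := by
      linear_combination z 0 1 * htr - c1
    have m2 : (z 1 0 - y 1 0) * (z 0 0 - y 1 1) + (z 1 1 - y 1 1) * (z 1 0 + y 1 0) = 0 := by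
      linear_combination z 1 0 * htr + c2
    have m3 : (z 1 0 - y 1 0) * (z 0 1 + y 0 1) + (z 1 1 - y 1 1) * (z 1 1 - y 0 0) = 0 := by
      linear_combination z 1 1 * htr - dz + dy + c0
    linear_combination ((z 1 0 - y 1 0) * (z 0 1 + y 0 1) + (z 1 1 - y 1 1) * (z 1 1 - y 0 0)) * m0
      - ((z 0 0 - y 0 0) * (z 0 1 + y 0 1) + (z 0 1 - y 0 1) * (z 1 1 - y 0 0)) * m2
  rcases mul_eq_zero.1 hprod with h | h
  · left
    exact eq_of_det h4 z y hzG hy (sub_eq_zero.1 h)
  · right
    apply eq_of_det h4 z y⁻¹ hzG (inv_mem hy)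
    rw [i0, i1, i2, i3]
    linear_combination h

theorem csa : IsCSA (Gp h4) := by
  intro M hM g hg x hx hgx
  by_contra hne
  have hxne : (x : SL(2, PowerSeries F)) ≠ 1 := fun h => hne (Subtype.ext h)
  -- `M` is the centralizer of `x`
  have hcen : ∀ a : Gp h4, a * x = x * a → a ∈ M := by
    let C : Subgroup (Gp h4) := Subgroup.centralizer {x}
    have hCab : IsAb C := by
      intro a ha b hb
      rw [Subgroup.mem_centralizer_singleton_iff] at ha hb
      apply Subtype.ext
      exact comm_trans x.1 a.1 b.1 hxne (congrArg Subtype.val ha).symm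
        (congrArg Subtype.val hb).symm
    have hMC : M ≤ C := by
      intro a ha
      rw [Subgroup.mem_centralizer_singleton_iff]
      exact hM.1 a ha x hx
    have := hM.2 C hCab hMC
    intro a ha
    rw [← this, Subgroup.mem_centralizer_singleton_iff]
    exact ha
  have hcomm := hM.1 x hx _ hgx
  have hcomm' := congrArg Subtype.val hcomm
  rcases conj_cases h4 x.1 g.1 x.2 g.2 hcomm' with h | h
  · apply hg
    apply hcen
    apply Subtype.ext
    change g.1 * x.1 = x.1 * g.1
    calc g.1 * x.1 = g.1 * (g.1⁻¹ * x.1 * g.1) := by rw [h]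
      _ = x.1 * g.1 := by group
  · by_cases hgg : g.1 * g.1 = 1
    · have hg1 := eq_one_of_sq h4 g.1 g.2 hgg
      apply hg
      have : g = 1 := Subtype.ext hg1
      rw [this]
      exact one_mem M
    · have hxg : x.1 * (g.1 * g.1) = (g.1 * g.1) * x.1 := by
        have h1 : x.1 * g.1 = g.1 * (x.1)⁻¹ := by rw [← h]; group
        have h2 : (x.1)⁻¹ * g.1 = g.1 * x.1 := by
          have := congrArg (fun z => z⁻¹) h
          simp only [mul_inv_rev, inv_inv] at this
          calc (x.1)⁻¹ * g.1 = g.1 * (g.1⁻¹ * ((x.1)⁻¹ * g.1)) := by group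
            _ = g.1 * x.1 := by rw [this]
        calc x.1 * (g.1 * g.1) = (x.1 * g.1) * g.1 := by group
          _ = g.1 * ((x.1)⁻¹ * g.1) := by rw [h1]; group
          _ = (g.1 * g.1) * x.1 := by rw [h2]; group
      have hcx := comm_trans (g.1 * g.1) g.1 x.1 hgg (by group) hxg.symm
      have hx2 : x.1 = (x.1)⁻¹ := by
        calc x.1 = g.1⁻¹ * (g.1 * x.1) := by group
          _ = g.1⁻¹ * (x.1 * g.1) := by rw [hcx]
          _ = (x.1)⁻¹ := by rw [← h]; group
      have hsq : x.1 * x.1 = 1 := mul_eq_one_iff_eq_inv.2 hx2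
      exact hxne (eq_one_of_sq h4 x.1 x.2 hsq)

/-- `diag(ω, ω²)` -/
theorem exists_c (w : F) (hw : w ^ 2 + w + 1 = 0) : ∃ c : SL(2, PowerSeries F), c ∈ Gp h4 ∧
    c 0 0 = C w ∧ c 0 1 = 0 ∧ c 1 0 = 0 ∧ c 1 1 = C (w ^ 2) := by
  have hdet : (!![C w, 0; 0, C (w ^ 2)] : Matrix (Fin 2) (Fin 2) (PowerSeries F)).det = 1 := by
    simp only [Matrix.det_fin_two_of, zero_mul, sub_zero]
    rw [← map_mul, ← map_one (C (R := F))]
    congr 1
    linear_combination (w - 1) * hw
  refine ⟨⟨!![C w, 0; 0, C (w ^ 2)], hdet⟩, (mem_Gp h4 _).2 ⟨?_, ?_⟩, rfl, rfl, rfl, rfl⟩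
  · change C (w ^ 2) = sg F (C w)
    simp [sg, frobenius_def]
  · change (0 : PowerSeries F) = X * sg F 0
    simp

theorem exists_h (w : F) (hw : w ^ 2 + w + 1 = 0) : ∃ g : SL(2, PowerSeries F), g ∈ Gp h4 ∧
    constantCoeff (g 0 0) = 1 ∧ constantCoeff (g 0 1) = w ∧ constantCoeff (g 1 0) = 0 ∧
    constantCoeff (g 1 1) = 1 := by
  have hu : (PowerSeries.constantCoeff (R := F)) (1 + X) ≠ 0 := by simp
  set s : PowerSeries F := (1 + X)⁻¹ with hs
  have hs1 : s * (1 + X) = 1 := PowerSeries.inv_mul_cancel _ hu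
  have hss : sg F s = s := by
    have h1 : sg F s * (1 + X) = 1 := by
      rw [← sg_X (F := F)]
      conv_lhs => rw [← map_one (sg F)]
      rw [← map_add, ← map_mul, hs1, map_one]
    calc sg F s = sg F s * ((1 + X) * s) := by rw [mul_comm (1 + X) s, hs1, mul_one]
      _ = s := by rw [← mul_assoc, h1, one_mul]
  have hC : sg F (C w) = C (w ^ 2) := by simp [sg, frobenius_def]
  have h2 : (2 : PowerSeries F) = 0 := CharTwo.two_eq_zero
  have hww : (C (w ^ 2) : PowerSeries F) + C w + 1 = 0 := by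
    rw [← map_add, ← map_one (C (R := F)), ← map_add, hw, map_zero]
  have hw3 : (C w : PowerSeries F) * C (w ^ 2) = 1 := by
    rw [← map_mul, ← map_one (C (R := F))]
    congr 1
    linear_combination (w - 1) * hw
  have hs0 : (PowerSeries.constantCoeff (R := F)) s = 1 := by
    have := congrArg (PowerSeries.constantCoeff (R := F)) hs1
    simpa using this
  have hdet : (!![(1 + C w * X) * s, C w * s; X * (C (w ^ 2) * s), (1 + C (w ^ 2) * X) * s] :
      Matrix (Fin 2) (Fin 2) (PowerSeries F)).det = 1 := by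
    rw [Matrix.det_fin_two_of]
    linear_combination (s ^ 2 * X ^ 2 - s ^ 2 * X) * hw3 + s ^ 2 * X * hww +
      (s * (1 + X) + 1) * hs1 - 2 * (s ^ 2 * X) * h2
  refine ⟨⟨_, hdet⟩, (mem_Gp h4 _).2 ⟨?_, ?_⟩, ?_, ?_, ?_, ?_⟩
  · change (1 + C (w ^ 2) * X) * s = sg F ((1 + C w * X) * s)
    rw [map_mul, map_add, map_mul, map_one, hC, sg_X, hss]
  · change X * (C (w ^ 2) * s) = X * sg F (C w * s)
    rw [map_mul, hC, hss]
  · change constantCoeff ((1 + C w * X) * s) = 1
    simp [hs0]
  · change constantCoeff (C w * s) = w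
    simp [hs0]
  · change constantCoeff (X * (C (w ^ 2) * s)) = 0
    simp
  · change constantCoeff ((1 + C (w ^ 2) * X) * s) = 1
    simp [hs0]

end

section top

variable {F : Type u} [Field F] [CharP F 2] (h4 : ∀ x : F, x ^ 4 = x) [Finite F]
  [TopologicalSpace F] [DiscreteTopology F]

theorem continuous_sg : Continuous (sg F) := by
  have : ∀ d : ℕ, Continuous (fun f : PowerSeries F => coeff d (sg F f)) := by
    intro d
    simp only [sg, PowerSeries.coeff_map]
    exact continuous_of_discreteTopology.comp (PowerSeries.WithPiTopology.continuous_coeff F d)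
  exact continuous_pi fun d => by
    obtain ⟨n, rfl⟩ : ∃ n : ℕ, d = Finsupp.single () n := ⟨d (), by ext; simp⟩
    exact this n

theorem isClosed_Gp : IsClosed (Gp h4 : Set SL(2, PowerSeries F)) := by
  have he : ∀ i j, Continuous (fun g : SL(2, PowerSeries F) => g i j) := by
    intro i j
    have h1 : Continuous (fun g : SL(2, PowerSeries F) =>
        (g : Matrix (Fin 2) (Fin 2) (PowerSeries F))) := continuous_subtype_val
    exact h1.matrix_elem i j
  have h1 : (Gp h4 : Set SL(2, PowerSeries F)) = {g | g 1 1 = sg F (g 0 0)} ∩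
      {g | g 1 0 = X * sg F (g 0 1)} := rfl
  rw [h1]
  apply IsClosed.inter
  · exact isClosed_eq (he 1 1) (continuous_sg.comp (he 0 0))
  · exact isClosed_eq (he 1 0) (continuous_const.mul (continuous_sg.comp (he 0 1)))

end top

/-- There is a non-abelian profinite CSA-group which is not pro-`p` for any prime `p`. -/
theorem result : ∃ (G : Type) (_ : Group G) (_ : TopologicalSpace G), IsProfinite G ∧ IsCSA G ∧
    (¬ ∀ a b : G, a * b = b * a) ∧ ∀ p : ℕ, p.Prime → ¬ IsProP p G := by
  let F := GaloisField 2 2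
  have hcard : Nat.card F = 4 := by
    have := GaloisField.card 2 2 (by norm_num)
    simpa using this
  have hfin : Finite F := Nat.finite_of_card_ne_zero (by rw [hcard]; norm_num)
  have : Fintype F := Fintype.ofFinite F
  have h4 : ∀ x : F, x ^ 4 = x := by
    intro x
    have := FiniteField.pow_card x
    rwa [← Nat.card_eq_fintype_card, hcard] at this
  obtain ⟨w, hw⟩ : ∃ w : F, w ^ 2 + w + 1 = 0 := by
    obtain ⟨a, ha, ha1⟩ : ∃ a : F, a ≠ 0 ∧ a ≠ 1 := by
      by_contra hcon
      push Not at hcon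
      have hsub : (Set.univ : Set F) ⊆ {0, 1} := by
        intro a _
        by_cases h : a = 0
        · left; exact h
        · right; exact hcon a h
      have h1 := Set.ncard_le_ncard hsub (by simp)
      rw [Set.ncard_univ, hcard] at h1
      have h2 : ({0, 1} : Set F).ncard ≤ 2 := Set.ncard_insert_le _ _ |>.trans (by simp)
      omega
    refine ⟨a, ?_⟩
    have h1 : a * ((a - 1) * (a ^ 2 + a + 1)) = 0 := by linear_combination h4 a
    rcases mul_eq_zero.1 h1 with h | h
    · exact absurd h ha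
    · rcases mul_eq_zero.1 h with h | h
      · exact absurd (sub_eq_zero.1 h) ha1
      · exact h
  let _ : TopologicalSpace F := ⊥
  have : DiscreteTopology F := ⟨rfl⟩
  have h2 : (2 : F) = 0 := CharTwo.two_eq_zero
  have hw0 : w ≠ 0 := by
    rintro rfl
    norm_num at hw
  have hw1 : w ≠ 1 := by
    rintro rfl
    have : (1 : F) = 0 := by linear_combination hw - h2
    exact one_ne_zero this
  have hw3 : w * w ^ 2 = 1 := by linear_combination (w - 1) * hw
  obtain ⟨c, hcG, c0, c1, c2, c3⟩ := exists_c h4 w hw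
  obtain ⟨g, hgG, g0, g1, g2, g3⟩ := exists_h h4 w hw
  let f : Gp h4 →* SL(2, F) := (red F).comp (Gp h4).subtype
  have hf : ∀ (x : Gp h4) (i j : Fin 2), (f x) i j = constantCoeff (x.1 i j) := fun _ _ _ => rfl
  have hcompact : CompactSpace (Gp h4) :=
    isCompact_iff_compactSpace.1 (isClosed_Gp h4).isCompact
  -- the images in `SL₂(𝔽₄)`
  set a : SL(2, F) := f ⟨c, hcG⟩ with ha
  set b : SL(2, F) := f ⟨g, hgG⟩ with hb
  have a0 : a 0 0 = w := by rw [ha, hf, c0]; simp
  have a1 : a 0 1 = 0 := by rw [ha, hf, c1]; simp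
  have a2 : a 1 0 = 0 := by rw [ha, hf, c2]; simp
  have a3 : a 1 1 = w ^ 2 := by rw [ha, hf, c3]; simp
  have b0 : b 0 0 = 1 := g0
  have b1 : b 0 1 = w := g1
  have b2 : b 1 0 = 0 := g2
  have b3 : b 1 1 = 1 := g3
  have one00 : (1 : SL(2, F)) 0 0 = 1 := by simp
  have one01 : (1 : SL(2, F)) 0 1 = 0 := by simp
  have one10 : (1 : SL(2, F)) 1 0 = 0 := by simp
  have one11 : (1 : SL(2, F)) 1 1 = 1 := by simp
  refine ⟨Gp h4, inferInstance, inferInstance, ⟨inferInstance, hcompact, inferInstance,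
    td_of_embedding (fun x : Gp h4 => x.1) continuous_subtype_val Subtype.val_injective⟩,
    csa h4, ?_, ?_⟩
  · intro hab
    have h1 : a * b = b * a := by
      have := congrArg f (hab ⟨c, hcG⟩ ⟨g, hgG⟩)
      rwa [map_mul, map_mul] at this
    have h3 := congrArg (fun z : SL(2, F) => z 0 1) h1
    simp only [mul01, a0, a1, a3, b0, b1, b3] at h3
    have h5 : w ^ 2 = 1 := by linear_combination h3 + hw3
    apply hw1
    have h6 : (w - 1) * (w - 1) = 0 := by linear_combination h5 - (w - 1) * h2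
    exact sub_eq_zero.1 (mul_self_eq_zero.1 h6)
  · intro p hp hprop
    obtain ⟨k, hk⟩ := hprop f.ker inferInstance (by
      have h1 : (f.ker : Set (Gp h4)) = Subtype.val ⁻¹' ((red F).ker : Set SL(2, PowerSeries F)) := by
        ext x
        rfl
      rw [h1]
      exact (isOpen_ker_red F).preimage continuous_subtype_val)
    rw [Subgroup.index_ker] at hk
    -- an element of order two and one of order three
    have key : ∀ (q : ℕ), q.Prime → ∀ x : Gp h4, f x ≠ 1 → (f x) ^ q = 1 → q = p := by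
      intro q hq x hx hxq
      have hmem : f x ∈ f.range := ⟨x, rfl⟩
      have : Fact q.Prime := ⟨hq⟩
      have h1 : orderOf (⟨f x, hmem⟩ : f.range) = q := by
        rw [Subgroup.orderOf_mk]
        exact orderOf_eq_prime hxq hx
      have h3 : q ∣ Nat.card f.range := by
        rw [← h1]; exact orderOf_dvd_natCard _
      rw [hk] at h3
      exact (Nat.prime_dvd_prime_iff_eq hq hp).1 (hq.dvd_of_dvd_pow h3)
    have hp2 : 2 = p := by
      apply key 2 Nat.prime_two ⟨g, hgG⟩
      · intro h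
        have h3 : b 0 1 = (1 : SL(2, F)) 0 1 := congrArg (fun z : SL(2, F) => z 0 1) (h : b = 1)
        rw [b1, one01] at h3
        exact hw0 h3
      · change b ^ 2 = 1
        rw [pow_two]
        apply ext_entries
        · rw [mul00, b0, b1, b2, one00]; ring
        · rw [mul01, b0, b1, b3, one01]; linear_combination w * h2
        · rw [mul10, b0, b2, b3, one10]; ring
        · rw [mul11, b1, b2, b3, one11]; ring
    have hp3 : 3 = p := by
      apply key 3 Nat.prime_three ⟨c, hcG⟩
      · intro h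
        have h3 : a 0 0 = (1 : SL(2, F)) 0 0 := congrArg (fun z : SL(2, F) => z 0 0) (h : a = 1)
        rw [a0, one00] at h3
        exact hw1 h3
      · change a ^ 3 = 1
        rw [pow_succ, pow_two]
        apply ext_entries
        · simp only [mul00, mul01, a0, a1, a2, one00]; linear_combination hw3
        · simp only [mul00, mul01, a0, a1, a3, one01]; ring
        · simp only [mul10, mul11, a0, a2, a3, one10]; ring
        · simp only [mul10, mul11, a1, a2, a3, one11]; linear_combination (w ^ 3 + 1) * hw3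
    omega

end Pool.Agent.Results.MP_b9311c_al.NotProP
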